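import Pool.Agent.Results.MP_45349e_nt.DistinctGaps
import Pool.Agent.U513.AP.Sparse

/-!
# The number of distinct gaps between integers coprime to a primorial, near integral polynomials at simultaneous approximations

The starting file bounds the number of the `k ≤ x` for which the number `gc k` of distinct gaps is small. Here: for all points `α`
outside of a set of small Hausdorff dimension, it is large for ALL natural numbers near integral polynomials at ALL approximations of
`α` with a large denominator.
-/

set_option autoImplicit false

open Finset

namespace Pool.Agent.Results.MP_45349e_nt.Approximations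

open Pool.Agent.U513.AP
open Pool.Agent.H461R2.GP

/-- There is `0 < δ < 1` such that the property that `min (J k, k ^ (1 + δ)) - k ^ (1 - δ) ≤ 2 gc k` holds at approximations outside of
exceptional sets of exponent `1 - δ`. -/
theorem result : ∃ δ : ℝ, 0 < δ ∧ δ < 1 ∧ AtApproximations (ι := Unit) (1 - δ)
    (fun _ k => min (J k : ℝ) ((k : ℝ) ^ (1 + δ)) - (k : ℝ) ^ (1 - δ) ≤ 2 * (gc k : ℝ)) := by
  classical
  obtain ⟨δ, hδ, hδ1, -, X₀, h⟩ := DistinctGaps.result
  refine ⟨δ, hδ, hδ1, sparse_law_pow hδ1.le _ fun _ => ⟨1, X₀, fun X hX => ?_⟩⟩
  rw [one_mul]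
  refine (ncard_le_filter fun n _ _ hn => ?_).trans (h X hX)
  exact not_le.1 hn

end Pool.Agent.Results.MP_45349e_nt.Approximations
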